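import Pool.Agent.H87.IS.AB
import Pool.Agent.H87.IS.All

/-!
# The strong motivic monodromy conjecture for isolated singular points which are formally sums of plane germs

Let `k ⊆ ℂ` be an algebraically closed subfield and `f ∈ k[x_1, …, x_n]` nonconstant, such that `{f = 0}` has finitely
many singular points, and at each of them

* the Hessian matrix of `f` has rank at least `n - 2` (corank at most two), or
* `f` is, in suitable formal coordinates, a sum of power series in disjoint variables, each in at most two
  variables: `f = g_1(y_1, y_2) + g_2(y_3, y_4) + …`, with arbitrary `g_i`.

Then there is a finite set `S ⊆ ℤ_{<0} × ℤ_{>0}` such that the motivic zeta function of `f` is in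
`M_k[T, 1/(1 - L^a T^b)]_{(a,b) ∈ S}` and `a/b` is a root of the Bernstein-Sato polynomial of `f` for all
`(a,b) ∈ S`. By the theorem of Kashiwara and Malgrange `exp(2πi a/b)` is then a monodromy eigenvalue of `f`.

Ideas. (1) The series of classes of `{φ : f(φ) = c t^d mod t^(d+1)}`, relative to the line with coordinate `c`, minus the one for
`c = 0`, is a sum of contributions of the critical points; the contribution of an isolated critical point is invariant
under formal changes of coordinates (bijections of jets), and so are D-modules with support in the point, with
elements `e_j` which behave like `f^(-s-j)`: power series act on them, and derivations can be transported. (2) If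
the origin is the only critical point of a polynomial `F` on `{F = 0}`, then each such D-module of `F` has support in the
origin. (3) By the splitting lemma, finite determinacy (an isolated critical point depends only on a jet) and an elementary
Bertini theorem (high powers of the coordinates with general coefficients remove the other critical points) each of the
given germs is formally equivalent to a polynomial `F`, a sum of polynomials in at most two variables, for which the origin
is the only critical point on `{F = 0}`. (4) For these the theorem on composites of plane curves (PlaneComposites) applies.
-/

set_option autoImplicit false

namespace Pool.Agent.Results.MP_432c1b_ag.IsolatedSums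

open MvPolynomial Pool.Mot Pool.Isol

/-- **The strong motivic monodromy conjecture for isolated singular points which are of corank at most two, or formally
sums of germs in at most two variables.** -/
theorem result (k : Subfield ℂ) [IsAlgClosed k] (n : ℕ) (f : MvPolynomial (Fin n) k)
    (hf : Nonconstant f) (hfin : {x | Sing f x}.Finite)
    (h : ∀ x, Sing f x → CorankTwo f x ∨ SumOfGerms f x) : Strong k f :=
  Pool.Agent.H87.IS.all_isolated k n f hf hfin h

end Pool.Agent.Results.MP_432c1b_ag.IsolatedSums
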