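import Pool.Agent.H66.Mot.LBridge

/-!
# The strong motivic monodromy conjecture for polynomials of degree at most one in all but two variables

Let `k ⊆ ℂ` be an algebraically closed subfield. We consider the polynomials over `k`

  `f = b(x_1,x_2) + y_1 a_1(x_1,x_2) + … + y_r a_r(x_1,x_2)`,

`r ≥ 0`, `b, a_1, …, a_r` ARBITRARY polynomials in two variables, `f` not constant: the polynomials which have degree
at most one in all variables but two. This contains all plane curves (`r = 0`), all surfaces
`z a(x,y) + b(x,y)` in the affine space of dimension three, and the polynomials `y_1 a_1 + … + y_r a_r` attached to
the ideals `(a_1, …, a_r)` in dimension two. The singular locus of `f` can have any dimension.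

Theorem: there is a finite set `S ⊆ ℤ_{<0} × ℤ_{>0}` such that the motivic zeta function of `f` is in
`M_k[T, 1/(1 - L^a T^b)]_{(a,b) ∈ S}` and `a/b` is a root of the Bernstein-Sato polynomial of `f` for all
`(a,b) ∈ S`. By the theorem of Kashiwara and Malgrange `exp(2πi a/b)` is then a monodromy eigenvalue of `f`.

The definitions are in `Pool/Agent/H66/Mot/Defs.lean` (`Strong k f`: there is a finite set `S` of pairs `(a,b)`, `a < 0 < b`,
such that `a/b` is a root of the Bernstein-Sato polynomial of `f` and the motivic zeta function is in
`R[T, 1/(1 - L^a T^b)]`, for every class function on the constructible sets over `k` with values in a ring `R`; by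
`Pool.Mot.zetaIn_iff`, `Pool/Agent/H66/Mot/Univ.lean`, this is equivalent to the statement for the class in
`M_k = K_0(Var_k)[1/L]`).

Ideas. (1) Elimination of the `y_i`: up to a power of `L`, the arcs `φ` of the plane with `b(φ) = c t^d` and
`a_i(φ) = 0` modulo `t^(d+1)` give the same difference of classes (to `c = 0`) as the arcs with `f = c t^d`. (2) A
Newton-Puiseux process for the tuple `(b, a_1, …, a_r)`: the arcs are sorted by the edges of the Newton polygon of the union of
the supports; below the order `d` only the COMMON roots of the edge polynomials matter. (3) New divisors, which do not
occur for one curve: a divisor with one moving point, where the tuple of edge polynomials is `(u_i z + v_i)_i`.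
If it is used, either `a/b` is a root of the Bernstein-Sato polynomial for a new reason, or the contribution cancels: if the
coefficients `a_i`, `i ≥ 1`, do not see the moving point then a telescoping sum shows that the pole of the first blow-up
disappears, and translations show that smooth parts do not contribute. (4) Roots: a D-module with elements `e_j` which behave like
`h^(-s-j)`, `h` a generic member of the linear system, and which are killed by the powers `I^(j+1)` of the ideal
`I = (b, a_1, …, a_r)`, extends to a D-module with elements which behave like `f^(-s-j)`. For the divisors with a moving point
the D-module is constructed from an explicit linear form on `k[z,η]`, formally the integral of `P (c + z η)^(-s) dz dη`, and for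
points where two of the `a_i` are local coordinates from a linear form which gives the root `-2`.
-/

set_option autoImplicit false

namespace Pool.Agent.Results.MP_432c1b_ag.LinearFamilies

open MvPolynomial Pool.Mot

/-- **The strong motivic monodromy conjecture for polynomials of degree at most one in all variables but
`x_i` and `x_j`.** -/
theorem result (k : Subfield ℂ) (hk : IsAlgClosed k) (n : ℕ) (i j : Fin n) (hij : i ≠ j)
    (f : MvPolynomial (Fin n) k) (hf : ∀ m ∈ f.support, ∑ l with l ≠ i ∧ l ≠ j, m l ≤ 1)
    (hc : ∃ l, pderiv l f ≠ 0) : Strong k f :=
  linear_families k hk n i j hij f hf hc

end Pool.Agent.Results.MP_432c1b_ag.LinearFamilies
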