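import Pool.Agent.H66.Mot.NBridge

/-!
# The strong motivic monodromy conjecture for simplicial Newton polyhedra

Let `k ⊆ ℂ` be a subfield and `f = ∑ c_m x^m` a nonconstant polynomial over `k` in `n` variables which is nondegenerate
with respect to its Newton polyhedron. For a weight `w ∈ ℕ^n` let `N f w` be the minimum of `w · m` on the exponents,
`Face f w` the set of exponents where it is taken; `w` is `Rigid` if it is the normal vector of a facet of the Newton
polyhedron; the ratio of `w` is `|w|/N(w)`. The theorem below proves the strong motivic monodromy conjecture (with the
roots of the Bernstein-Sato polynomial in place of the monodromy eigenvalues) if every facet with `N(w) > 0` satisfies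
one of the following conditions.

* `|w| = N(w)`, or
* `SimplicialFrom f w`: the exponents on each facet of ratio at least `|w|/N(w)` are affinely independent. The
  coefficients of `f` are ARBITRARY, and so are the exponents above the facets; or
* `Labelled f V w`: all facets of this ratio are B1-facets with compatible apices (here one works with the exponents from
  a set `V`, for example the set of vertices of the Newton polytope; the coefficients are arbitrary); or
* `f` is `VeryGeneral` and `Simplicial f V w`: the exponents from `V` on each facet of this ratio are affinely
  independent. There may be ARBITRARY further exponents on the facets and above them; or
* `f` is `VeryGeneral` and some good weight has the same ratio.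

In particular the conjecture holds, for every number of variables and without any condition on the singular locus,

* for every nondegenerate `f` (arbitrary coefficients) such that the exponents on each facet with `N(w) > 0` are affinely
  independent;
* for very general `f` with given set of exponents such that the facets of the Newton polyhedron with `N(w) > 0` are
  simplices (or cones over simplices).

There is no non-resonance condition for pairs of facets, and B1-facets are allowed. `VeryGeneral` holds if the exponents
of `f` are affinely independent (arbitrary nonzero coefficients) or if the coefficients of `f` are algebraically
independent over `ℚ`. By the theorem of Kashiwara and Malgrange `exp(2πi a/b)` is a monodromy eigenvalue of `f` if `a/b`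
is a root of the Bernstein-Sato polynomial.

The definitions are in `Pool/Agent/H66/Mot/Defs.lean` (`Strong k f`: there is a finite set `S` of pairs `(a,b)`, `a < 0 < b`,
such that `a/b` is a root of the Bernstein-Sato polynomial of `f` and the motivic zeta function is in
`R[T, 1/(1 - L^a T^b)]`, for every class function on the constructible sets over `k` with values in a ring `R`; by
`Pool.Mot.zetaIn_iff`, `Pool/Agent/H66/Mot/Univ.lean`, this is equivalent to the statement for the class in
`M_k = K_0(Var_k)[1/L]`) and in `Pool/Agent/H66/Mot/NDefs.lean` (Newton polyhedra: `A` is the set of exponents of `f`,
`g` is `f` as a polynomial over `ℂ`).

Ideas. (1) Compare the coefficients in `P(s) f^(s+1) = b(s) f^s`. This is a recurrence for the functions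
`M(t) = 1/∏ t_i!` on the lattice `ℤ^supp(f)`. In the very general case the relations between the exponents can be separated.
For arbitrary coefficients they can be separated on the coordinate subspaces `t_j = const` (`j` not on the
facet), and one needs the facets of bigger ratio because the resulting polynomial identity holds only modulo the
Stanley-Reisner ideal of the facets of ratio at least `-α`. (2) Expand at a point `t0` of the face with `|t0| = α`, a
number which may be a negative integer for some coordinates. If `b(α) ≠ 0` then the lowest homogeneous part shows that
a monomial is in an ideal generated by products of linear forms. (3) Such a relation is impossible unless the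
half-open boxes of the normal fan which it represents are empty: by exponentials and the intersection theorem of Krull
one passes to the group ring, where the generators are killed by a functional which counts lattice points far away, and
the monomial is not. (4) If `α` is not a root then the sum of the contributions of the boxes of the ratio `-α` to the
motivic zeta function cancels: for each face `τ` of ratio `-α` there is a vertex `i` and a variable `l` such that `τ` is a
pyramid of height one with apex `i` over its part in `x_l = 0` (otherwise (3) is contradicted), the apex is coherent on
the stars, and the contributions of `τ` and of its base `τ \ i` are proportional up to terms without the pole.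
-/

set_option autoImplicit false

namespace Pool.Agent.Results.MP_432c1b_ag.NewtonSimplicial

open MvPolynomial Pool.Mot

/-- **The strong motivic monodromy conjecture for simplicial Newton polyhedra.** `g` is `f` as a polynomial over `ℂ`. -/
theorem result (k : Subfield ℂ) (n : ℕ) (f : MvPolynomial (Fin n) k) (g : MvPolynomial (Fin n) ℂ)
    (hg : g = map (algebraMap k ℂ) f) (hf : ∀ c, g ≠ C c) (hn : Nondegenerate g ∨ VeryGeneral g)
    (V : Set (Fin n →₀ ℕ)) (hV : Hull g.support V)
    (hB : ∀ w, Rigid g.support w → 0 < N g.support w →
      ∑ l, w l = N g.support w ∨
      SimplicialFrom g.support w ∨
      Labelled g.support V w ∨
      (VeryGeneral g ∧ (Simplicial g.support V w ∨ ∃ w', Good g.support w' ∧ 0 < N g.support w' ∧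
        (∑ l, w l) * N g.support w' = (∑ l, w' l) * N g.support w))) :
    Strong k f :=
  newton hg hf hn V hV hB

end Pool.Agent.Results.MP_432c1b_ag.NewtonSimplicial
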