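import Pool.Agent.H87.QF.PB
import Pool.Agent.H87.QF.All

/-!
# The strong motivic monodromy conjecture for fibrewise composites of plane curves and quadric families

Let `k ⊆ ℂ` be a subfield. We define by recursion when a polynomial `f` over `k`, in the variables `x_i`,
`i ∈ s`, is good at the value `a ∈ k`:

* every polynomial is good at its noncritical values;
* if `k` is algebraically closed: every nonconstant polynomial in TWO variables is good at every value, and so is
  every nonconstant polynomial which has total degree at most `2` in all variables but one, i.e. every family
  of (affine, inhomogeneous, possibly degenerate) quadrics over the affine line, with arbitrary polynomial coefficients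
  `∑_{i,j} a_{ij}(t) y_i y_j + ∑_i b_i(t) y_i + c(t)`;
* if `f` and `g` are good at `0`, nonconstant, in disjoint sets of variables, then `f g` is good at `0`;
* if `k` is algebraically closed: if `f` and `g` are nonconstant, in disjoint sets of variables, and good at all values,
  then `f + g`, `f g` and `p(f)`, `p` any nonconstant polynomial in one variable, are good at all values;
* gates: let `f_0, …, f_r` be nonconstant polynomials in disjoint sets of variables and `G ∈ k[u_0, …, u_r]`
  ANY polynomial. Consider the points `x ∈ ℂ^(r+1)` with `G(x) = a` such that for each `i` the derivative
  `∂G/∂u_i` vanishes at `x` or `x_i` is a critical value of `f_i`. If these points are among finitely many points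
  `b ∈ k^(r+1)` with `G(b) = a`, if `G(b + u) - a` is semi-weighted homogeneous at each of them (relative to a
  set `B` of indices such that `b_i` is a noncritical value of `f_i` for `i ∈ B`) and if `f_i` is good at `b_i`,
  then `G(f_0, …, f_r)` is good at `a`.

Semi-weighted homogeneous: `P = H + R`, where `H` is weighted homogeneous of degree `d` for weights
`0 < w_i ≤ d`, all monomials of `R` have weight greater than `d`, and the origin is the only common zero
of `∂H/∂u_i`, `i ∈ B`, and `u_i ∂H/∂u_i`, `i ∉ B`.

For every nonconstant polynomial `f` which is good at `0` we prove that there is a finite set
`S ⊆ ℤ_{<0} × ℤ_{>0}` such that the motivic zeta function of `f` is in `M_k[T, 1/(1 - L^a T^b)]_{(a,b) ∈ S}`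
and `a/b` is a root of the Bernstein-Sato polynomial of `f` for all `(a,b) ∈ S`. By the theorem of
Kashiwara and Malgrange `exp(2πi a/b)` is then a monodromy eigenvalue of `f`.

The definitions are in `Pool/Agent/H66/Mot/Defs.lean` (`Strong k f`: there is a finite set `S` of pairs `(a,b)`, `a < 0 < b`,
such that `a/b` is a root of the Bernstein-Sato polynomial of `f` and the motivic zeta function is in
`R[T, 1/(1 - L^a T^b)]`, for every class function on the constructible sets over `k` with values in a ring `R`; by
`Pool.Mot.zetaIn_iff`, `Pool/Agent/H66/Mot/Univ.lean`, this is equivalent to the statement for the class in
`M_k = K_0(Var_k)[1/L]`) and in `Pool/Agent/H87/QF/PDefs.lean` (`Good` and the gates).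

Ideas. The proof works with the relative classes of `{φ : f(φ) = c t^d mod t^(d+1)}` over the affine line with
coordinate `c`, and with the difference to `c = 0`. Plane curves: the arcs are sorted by a Newton-Puiseux process
(weighted blow-ups of the edges of Newton polygons, after a change of coordinates which removes edges with a single root
`(y - μ x^q)^b`); the contributions of cones of the Newton polygon are generating series of lattice points of a cone, and every
divisor which is used has at least three special points. For each such divisor, of multiplicities `(N, ν)`, one constructs
a D-module with elements `e_j`, which behave like `f^(-ν/N-j)`, from the residue along the divisor of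
`f^(-ν/N-j) dx dy` and a linear form on `k(z)` which vanishes on exact forms but not on the form given by the residue.
Quadric families: over the local ring of the line at a point the family is brought, by a change of the fibre coordinates,
to `u t^e y_0 + …` or to the diagonal form `c t^m + ∑ a_j t^(e_j) y_j^2` with units `a_j` (`DIA`, `DGN`); the zeta function of a
truncated diagonal form is computed by recursion on the order of `t` (`NST`, `LST`, `ZER`), its poles are
`-1`, `-(1 + ∑_{e_i<τ} (τ - e_i)/2)/τ` for certain `τ`; that they are roots of the Bernstein-Sato polynomial is
shown by D-modules of twisted residues along the corresponding divisors: the weight `(τ - e_i)/2` blow-up reduces this to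
a linear form on the twisted de Rham cohomology of the complement of a diagonal quadric (`PRI`, `PRT`, `PUR`, `LRT`).
Gates: these arcs are sorted by the weighted order of `(f_i(φ_i) - b_i)_i`; below the top order the difference
vanishes, since one input can be reparametrised or translated such that `G(f(φ))` changes by a given multiple of `t^d`.
Sums, products and outer polynomials are gates, since polynomials have finitely many critical values (Sard's lemma, which
is proved algebraically with derivations of function fields).
-/

set_option autoImplicit false

namespace Pool.Agent.Results.MP_432c1b_ag.PlaneComposites

open MvPolynomial Pool.Mot Pool.QF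

/-- **The strong motivic monodromy conjecture for fibrewise composites of plane curves and quadric families.** -/
theorem result (k : Subfield ℂ) (n : ℕ) (s : Finset (Fin n)) (f : MvPolynomial (Fin n) k)
    (hf : Pool.QF.Good s f 0) (hc : Pool.QF.Nonconstant f) : Strong k f :=
  Pool.QF.composites Pool.Agent.H87.QF.all_FIN k n s f hf hc

end Pool.Agent.Results.MP_432c1b_ag.PlaneComposites
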